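import Pool.Agent.Q205.QLim.Fin
import Pool.Agent.Y264.QR.All

/-!
# Generic conformal metrics: the uniform measure and the quantum limits along a sequence of indices

`(M, g)` is a closed surface with a continuous Riemannian metric (for instance a smooth metric of
negative curvature), `F` a topological vector space with a continuous linear map `ι` to `C(M)` with
dense image, for instance `C^∞(M)` or `C(M)`. For `φ ∈ F` let `u 0, u 1, ...` be an orthonormal basis
of `L²` of eigenfunctions of the Laplacian of the metric `exp (ι φ) · g`, ordered by the eigenvalue.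
Generic means: for all `φ` in a residual set (a dense set if `F` is a Baire space; then this also
applies to the open set of the `φ` for which the metric has negative curvature).

* For generic `φ` all positive eigenvalues are simple.
* Let `J 0, J 1, ...` be ANY sequence of indices which tends to infinity. For generic `φ` and for
  every continuous function `f` the mean value of `f` lies between the lower and the upper limit
  of the masses `∫ f (u (J k))² dA`. So the uniform measure lies in the closed convex hull of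
  the quantum limits along `J`; if the measures `(u (J k))² dA` converge, the limit is the
  uniform measure.
* For generic `φ`, if these masses converge to the mean value (equidistribution along `J`), they do so
  uniformly for all metrics near `φ` (with simple positive eigenvalues).

Proof. The set of the `φ` for which, for all `k ≥ n`, some unit eigenvector of the eigenvalue with
the index `J k` has a mass `∫ h u² dA ≤ c` is closed (perturbation theory of eigenvectors). A generic
`φ` in such a set is an interior point of it. On the line `φ + t h` the mass is, for almost every `t`,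
the logarithmic derivative of the eigenvalue (with the opposite sign), which is constant on the unit
eigenvectors; by Weyl's law its integral over `[0, s]` tends to the integral of the mean value of `h`,
so the mean value is at most `c`. Weyl's law, the variation formula and the form domain are from the
project QR of the starting files (see `MP_07c750_an/RandomConformalMetrics`).
-/

set_option autoImplicit false

open Set Filter Topology MeasureTheory
open scoped Real ContDiff
open Pool.Agent.Y262.QE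

noncomputable section

namespace Pool.Agent.Results.MP_07c750_an.EverySequenceOfIndices

/-- `u 0, u 1, ...` is an orthonormal basis of `L² (μ)` which consists of eigenfunctions of the
Laplacian of the surface `D` with the area `μ`; the eigenvalues `lam 0 ≤ lam 1 ≤ ...` are ordered -/
structure IsEigenbasis {M : Type} [MeasurableSpace M] (D : Data M) (μ : Measure M)
    (u : ℕ → M → ℝ) (lam : ℕ → ℝ) : Prop where
  eig : ∀ j, D.IsEig μ (lam j) (u j)
  mono : Monotone lam
  orth : ∀ i j, ∫ x, u i x * u j x ∂μ = if i = j then 1 else 0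
  total : ∀ f : M → ℝ, MemLp f 2 μ → (∀ j, ∫ x, f x * u j x ∂μ = 0) → f =ᵐ[μ] 0

/-- the surface with the metric `exp φ · g` -/
def surf {M : Type} [TopologicalSpace M] (D : Data M) (φ : C(M, ℝ)) : Data M :=
  D.conf fun x => Real.exp (φ x)

/-- the area of the metric `exp φ · g` -/
def area {M : Type} [TopologicalSpace M] [MeasurableSpace M] (μ : Measure M) (φ : C(M, ℝ)) :
    Measure M :=
  wm μ fun x => Real.exp (φ x)

/-- the mean value of `f` for the metric `exp φ · g` -/
def mean {M : Type} [TopologicalSpace M] [MeasurableSpace M] (μ : Measure M) (f φ : C(M, ℝ)) : ℝ :=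
  (∫ x, f x ∂(area μ φ)) / (area μ φ).real univ

/-- the mass of `f` for the function `u` and the metric `exp φ · g` -/
def mass {M : Type} [TopologicalSpace M] [MeasurableSpace M] (μ : Measure M) (f φ : C(M, ℝ))
    (u : M → ℝ) : ℝ :=
  ∫ x, f x * (u x) ^ 2 ∂(area μ φ)

/-- the positive eigenvalues are simple -/
def Simple (lam : ℕ → ℝ) : Prop := ∀ j, 0 < lam j → lam j < lam (j + 1)

theorem result (M : Type) [MetricSpace M] [CompactSpace M] [MeasurableSpace M] [BorelSpace M]
    [Nonempty M] (μ : Measure M) (D : Data M) (hD : D.IsSurf μ)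
    (F : Type) [AddCommGroup F] [Module ℝ F] [TopologicalSpace F] [IsTopologicalAddGroup F]
    [ContinuousSMul ℝ F] (ι : F →L[ℝ] C(M, ℝ)) (hι : DenseRange ι) :
    -- bases of eigenfunctions exist
    (∀ φ : F, (surf D (ι φ)).IsSurf (area μ (ι φ)) ∧
      ∃ (u : ℕ → M → ℝ) (lam : ℕ → ℝ), IsEigenbasis (surf D (ι φ)) (area μ (ι φ)) u lam) ∧
    -- the positive eigenvalues of generic metrics are simple
    (∀ᶠ φ in residual F, ∀ (u : ℕ → M → ℝ) (lam : ℕ → ℝ),
      IsEigenbasis (surf D (ι φ)) (area μ (ι φ)) u lam → Simple lam) ∧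
    -- every sequence of indices
    ∀ J : ℕ → ℕ, Tendsto J atTop atTop → ∀ᶠ φ in residual F, ∀ (u : ℕ → M → ℝ) (lam : ℕ → ℝ),
      IsEigenbasis (surf D (ι φ)) (area μ (ι φ)) u lam → ∀ f : C(M, ℝ),
      (∀ c : ℝ, c < mean μ f (ι φ) → ∃ᶠ k in atTop, c < mass μ f (ι φ) (u (J k))) ∧
      (∀ c : ℝ, mean μ f (ι φ) < c → ∃ᶠ k in atTop, mass μ f (ι φ) (u (J k)) < c) ∧
      (∀ L : ℝ, Tendsto (fun k => mass μ f (ι φ) (u (J k))) atTop (𝓝 L) →
        L = mean μ f (ι φ) ∧ ∀ ε : ℝ, 0 < ε → ∃ V ∈ 𝓝 φ, ∃ K : ℕ, ∀ ψ ∈ V,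
          ∀ (u' : ℕ → M → ℝ) (lam' : ℕ → ℝ),
          IsEigenbasis (surf D (ι ψ)) (area μ (ι ψ)) u' lam' → Simple lam' → ∀ k, K ≤ k →
            |mass μ f (ι ψ) (u' (J k)) - mean μ f (ι ψ)| < ε) := by
  obtain ⟨hf, -⟩ := tFin M μ D hD
  haveI := hf
  obtain ⟨i, a, hSf, hi, ha⟩ := Pool.Agent.Y264.QR.tPackF M μ D hD inferInstance
  obtain ⟨b, hB, hF, hA, hexp, -⟩ := Pool.Agent.Y264.QR.tFm M μ (Pool.Agent.Y264.QR.HF D μ) i a hSf
  have hW := Pool.Agent.Y264.QR.tWl M μ D hD inferInstance i a b hSf hi ha hB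
  haveI : CompleteSpace (Pool.Agent.Y264.QR.HF D μ) :=
    (Submodule.isClosed_topologicalClosure _).completeSpace_coe
  have hex : ∀ φ, ∃ (e : ℕ → Pool.Agent.Y264.QR.HF D μ) (E : ℕ → ℝ), Eg a (b φ) e E :=
    fun φ => tSp (Pool.Agent.Y264.QR.HF D μ) a (b φ) (hF φ)
  have hbr : ∀ (φ : C(M, ℝ)) (u : ℕ → M → ℝ) (lam : ℕ → ℝ),
      IsEigenbasis (surf D φ) (area μ φ) u lam → ∃ e : ℕ → Pool.Agent.Y264.QR.HF D μ,
        (∀ (f : C(M, ℝ)) (j : ℕ), Pool.Agent.Y264.QR.kap μ i f φ (e j) = mass μ f φ (u j)) ∧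
        Eg a (b φ) e lam ∧ (∀ j, Ev a (b φ) j = lam j) ∧
        ∀ j, Pool.Agent.Q205.QLim.UE a (b φ) (Ev a (b φ) j) (e j) := by
    intro φ u lam hu
    obtain ⟨e, he1, he2⟩ := Pool.Agent.Y264.QR.tBr M μ D hD i a b hSf hi ha hB hF φ u lam
      ⟨hu.eig, hu.mono, hu.orth, hu.total⟩
    have hmm : ∀ j, Ev a (b φ) j = lam j := fun j =>
      Pool.Agent.Y592.QE.mm _ a (b φ) (hF φ) e lam he2 j
    refine ⟨e, fun f j => Pool.Agent.Y264.QR.kap_eq μ i f φ _ _ (he1 j), he2, hmm, fun j => ?_⟩
    exact ⟨by rw [he2.orth, if_pos rfl], fun w => by rw [hmm]; exact he2.eig j w⟩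
  have havg : ∀ f φ : C(M, ℝ), Pool.Agent.Y264.QR.avg μ f φ = mean μ f φ := fun f φ =>
    Pool.Agent.Y264.QR.avg_eq μ f φ
  obtain ⟨l1, l2, l3, -, l5⟩ := Pool.Agent.Y390.QR.LIP.lip M μ (Pool.Agent.Y264.QR.HF D μ) a b hF
    hexp
  refine ⟨fun φ => ⟨(tConf M μ D hD _
    (Real.continuous_exp.comp (ι φ).continuous) fun x => Real.exp_pos _).1, ?_⟩, ?_, ?_⟩
  · obtain ⟨u, lam, h⟩ := Pool.Agent.Y264.QR.tEx M μ D hD inferInstance (ι φ)
    exact ⟨u, lam, h.eig, h.mono, h.orth, h.total⟩
  · filter_upwards [Pool.Agent.Q205.QLim.generic_main μ i a b hSf hB hex hW ι hι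
      (J := id) tendsto_id] with φ hφ u lam hu j hj
    obtain ⟨e, -, he, hmm, -⟩ := hbr (ι φ) u lam hu
    refine Pool.Agent.Q205.QLim.simple_of_const μ i a b hSf hB he fun f v w hv hw => ?_
    rw [← hmm] at hv hw hj
    exact hφ.1 f j hj v w hv hw
  · intro J hJ
    filter_upwards [Pool.Agent.Q205.QLim.generic_main μ i a b hSf hB hex hW ι hι hJ]
      with φ hφ u lam hu f
    obtain ⟨-, h2, h3⟩ := hφ
    obtain ⟨e, hkap, he, hmm, hUE⟩ := hbr (ι φ) u lam hu
    have hlow : ∀ (f : C(M, ℝ)) (c : ℝ), c < mean μ f (ι φ) →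
        ∃ᶠ k in atTop, c < mass μ f (ι φ) (u (J k)) := by
      intro f c hc
      rw [← havg] at hc
      refine (h2 f c hc).mono fun k hk => ?_
      rw [← hkap]
      exact hk _ (hUE (J k))
    have hneg : ∀ (f φ : C(M, ℝ)) (v : Pool.Agent.Y264.QR.HF D μ),
        Pool.Agent.Y264.QR.kap μ i (-f) φ v = -Pool.Agent.Y264.QR.kap μ i f φ v :=
      fun f φ v => Pool.Agent.Q205.QLim.kap_neg μ i f φ v
    have hmneg : ∀ φ : C(M, ℝ), mean μ (-f) φ = -mean μ f φ := by
      intro φ
      unfold mean
      rw [← neg_div, ← integral_neg]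
      rfl
    have hmassneg : ∀ (φ : C(M, ℝ)) (v : M → ℝ), mass μ (-f) φ v = -mass μ f φ v := by
      intro φ v
      unfold mass
      rw [← integral_neg]
      refine integral_congr_ae (Eventually.of_forall fun x => ?_)
      simp only [ContinuousMap.neg_apply]
      ring
    have hup : ∀ c : ℝ, mean μ f (ι φ) < c → ∃ᶠ k in atTop, mass μ f (ι φ) (u (J k)) < c := by
      intro c hc
      refine (hlow (-f) (-c) (by rw [hmneg]; linarith)).mono fun k hk => ?_
      rw [hmassneg] at hk
      linarith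
    refine ⟨hlow f, hup, fun L hL => ?_⟩
    have hLm : L = mean μ f (ι φ) := by
      refine le_antisymm ?_ ?_
      · by_contra hcon
        push Not at hcon
        obtain ⟨c, hc1, hc2⟩ := exists_between hcon
        obtain ⟨k, hk1, hk2⟩ := ((hup c hc1).and_eventually
          (hL.eventually (lt_mem_nhds hc2))).exists
        linarith
      · by_contra hcon
        push Not at hcon
        obtain ⟨c, hc1, hc2⟩ := exists_between hcon
        obtain ⟨k, hk1, hk2⟩ := ((hlow f c hc2).and_eventually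
          (hL.eventually (gt_mem_nhds hc1))).exists
        linarith
    refine ⟨hLm, fun ε hε => ?_⟩
    subst hLm
    set m := mean μ f (ι φ) with hm
    have hev1 : ∀ᶠ k in atTop, ∃ v, Pool.Agent.Q205.QLim.UE a (b (ι φ)) (Ev a (b (ι φ)) (J k)) v ∧
        Pool.Agent.Y264.QR.kap μ i f (ι φ) v ≤ m + ε / 4 := by
      filter_upwards [hL.eventually (gt_mem_nhds (show m < m + ε / 4 by linarith))] with k hk
      exact ⟨e (J k), hUE (J k), by rw [hkap]; exact hk.le⟩
    have hev2 : ∀ᶠ k in atTop, ∃ v, Pool.Agent.Q205.QLim.UE a (b (ι φ)) (Ev a (b (ι φ)) (J k)) v ∧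
        Pool.Agent.Y264.QR.kap μ i (-f) (ι φ) v ≤ -m + ε / 4 := by
      filter_upwards [hL.eventually (lt_mem_nhds (show m - ε / 4 < m by linarith))] with k hk
      refine ⟨e (J k), hUE (J k), ?_⟩
      rw [hneg, hkap]
      linarith
    obtain ⟨V1, hV1, K1, hK1⟩ := h3 f _ hev1 (ε / 4) (by positivity)
    obtain ⟨V2, hV2, K2, hK2⟩ := h3 (-f) _ hev2 (ε / 4) (by positivity)
    have hcont : ∀ᶠ ψ in 𝓝 φ, |mean μ f (ι ψ) - m| < ε / 4 := by
      have h4 := ((Pool.Agent.Q205.QLim.avg_continuous μ hA f).comp ι.continuous).tendsto φ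
      have h5 := h4.eventually (Metric.ball_mem_nhds _ (show 0 < ε / 4 by positivity))
      filter_upwards [h5] with ψ h6
      rw [Real.dist_eq] at h6
      simp only [Function.comp, havg] at h6
      exact h6
    -- positivity of the eigenvalues with large indices
    obtain ⟨K3, hK3⟩ : ∃ K3 : ℕ, ∀ k, K3 ≤ k → ∀ ψ : C(M, ℝ), 0 < Ev a (b ψ) (J k) := by
      have h4 := hJ.eventually ((hW (ι φ)).eventually (lt_mem_nhds
        (div_pos (by positivity : (0 : ℝ) < 4 * π) (hA (ι φ)))))
      obtain ⟨K3, hK3⟩ := eventually_atTop.1 h4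
      refine ⟨K3, fun k hk => ?_⟩
      rcases l5 (J k) with h5 | h5
      · exfalso
        have h6 := hK3 k hk
        rw [h5, zero_div] at h6
        exact lt_irrefl _ h6
      · exact h5
    refine ⟨V1 ∩ V2 ∩ {ψ | |mean μ f (ι ψ) - m| < ε / 4}, inter_mem (inter_mem hV1 hV2) hcont,
      max (max K1 K2) K3, ?_⟩
    rintro ψ ⟨⟨hψ1, hψ2⟩, hψ3⟩ u' lam' hu' hsimple k hk
    obtain ⟨e', hkap', he', hmm', hUE'⟩ := hbr (ι ψ) u' lam' hu'
    have hk1 : K1 ≤ k := (le_max_left _ _).trans ((le_max_left _ _).trans hk)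
    have hk2 : K2 ≤ k := (le_max_right _ _).trans ((le_max_left _ _).trans hk)
    have hk3 : K3 ≤ k := (le_max_right _ _).trans hk
    have hpos : 0 < lam' (J k) := by rw [← hmm']; exact hK3 k hk3 _
    have hne : ∀ l, l ≠ J k → lam' l ≠ lam' (J k) := by
      intro l hl heq
      rcases lt_or_gt_of_ne hl with h | h
      · have h6 := hsimple l (by rw [heq]; exact hpos)
        have h7 := hu'.mono (Nat.succ_le_of_lt h)
        simp only [Nat.succ_eq_add_one] at h7
        linarith
      · have h6 := hsimple (J k) hpos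
        have h7 := hu'.mono (Nat.succ_le_of_lt h)
        simp only [Nat.succ_eq_add_one] at h7
        linarith
    have hconst : ∀ (g : C(M, ℝ)) (v w : Pool.Agent.Y264.QR.HF D μ),
        Pool.Agent.Q205.QLim.UE a (b (ι ψ)) (Ev a (b (ι ψ)) (J k)) v →
        Pool.Agent.Q205.QLim.UE a (b (ι ψ)) (Ev a (b (ι ψ)) (J k)) w →
        Pool.Agent.Y264.QR.kap μ i g (ι ψ) v = Pool.Agent.Y264.QR.kap μ i g (ι ψ) w := by
      intro g v w hv hw
      rw [hmm'] at hv hw
      rw [Pool.Agent.Q205.QLim.kap_of_simple μ i a b hSf hB he' hne hv g,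
        Pool.Agent.Q205.QLim.kap_of_simple μ i a b hSf hB he' hne hw g]
    have g1 := hK1 ψ hψ1 k hk1 hconst _ (hUE' (J k))
    have g2 := hK2 ψ hψ2 k hk2 hconst _ (hUE' (J k))
    rw [hkap'] at g1
    rw [hneg, hkap'] at g2
    have hψ3' : |mean μ f (ι ψ) - m| < ε / 4 := hψ3
    obtain ⟨g3, g4⟩ := abs_lt.1 hψ3'
    rw [abs_lt]
    constructor <;> linarith

end Pool.Agent.Results.MP_07c750_an.EverySequenceOfIndices
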