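import Pool.Agent.Q175.RW.QC

/-!
# The fourth moment and quantum unique ergodicity on surfaces (MP_07c750_an)

A Riemannian surface in isothermal coordinates: an open set `Ω ⊆ ℂ` with the metric `ρ |dz|²`,
area measure `dvol = ρ dx dy`, and a relatively compact open subset `U` whose boundary has measure
zero. For a closed surface of negative curvature one can take for `Ω` the upper half plane (its
universal covering, with the lifted metric) and for `U` the interior of a fundamental domain.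
`dx f z`, `dy f z` are the partial derivatives `fderiv ℝ f z 1`, `fderiv ℝ f z I`, and
`lap f = dx (dx f) + dy (dy f)`; `TF U φ` says that `φ : ℂ → ℝ` is smooth with compact support
contained in `U`.

In the metric rescaled by `λ` the operator `D = (λ ρ)^{-1/2} (∂x - i ∂y)` is the derivative
`∂_1 - i ∂_2` in the conformal orthonormal frame; at a unit momentum of direction `α` its symbol is
`sym α = i exp(-iα)`. The hypothesis `hsc` says that `u n` has the semiclassical measure (quantum
limit on the unit cosphere bundle) `m(z) ν_z(dα) dvol(z)`, where `m`, the density of the limit of the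
measures `u² dvol`, is locally square integrable (this is automatic if the fourth moments are
bounded) and `ν_z` is the law of the direction at `z`. The hypothesis `hpar` says that `ν_z` has
no atoms modulo `π`.

Proof idea. The fourth moment of a sequence of eigenfunctions with semiclassical measure `m ν_z` is
asymptotically at least `3 ∫ m² dvol` (the random wave value), on every open set. Together with the
Cauchy-Schwarz inequality for `∫ m dvol` this gives (1) and (2). For (3) and (4) the lower bound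
on all open sets localises the hypothesis, and the local mass at the scale `r` is controlled by the
excess of the fourth moment.
-/

set_option autoImplicit false
open MeasureTheory Filter Topology Complex ProbabilityTheory
open scoped ContDiff ENNReal

namespace Pool.Agent.Results.MP_07c750_an.FourthMomentCriterion

open Pool.Agent.W745.RW

/-- the normalised frame derivative `(λ ρ)^{-1/2} (∂x - i ∂y)` -/
noncomputable def D (ρ : ℂ → ℝ) (lam : ℝ) (f : ℂ → ℂ) (z : ℂ) : ℂ :=
  ((1 / √(lam * ρ z) : ℝ) : ℂ) * (dx f z - I * dy f z)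

/-- the symbol of `D` at a unit momentum of direction `α` -/
noncomputable def sym (α : ℝ) : ℂ := I * Complex.exp (-(α : ℂ) * I)

/-- the probability that two independent directions of law `ν` are parallel (equal or opposite) -/
noncomputable def parallel (ν : Measure ℝ) : ℝ :=
  (ν.prod ν).real {p | Real.sin (p.1 - p.2) = 0}

/-- the area of `S` -/
noncomputable def area (ρ : ℂ → ℝ) (S : Set ℂ) : ℝ := ∫ z in S, ρ z

/-- the mean of `f` over the disc with centre `z` and radius `r` -/
noncomputable def mean (r : ℝ) (f : ℂ → ℝ) (z : ℂ) : ℝ :=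
  1 / (Real.pi * r ^ 2) * ∫ w in Metric.ball z r, f w

/-- **Result.** Let `u n` be real solutions of `Δu + λ_n u = 0` for the metric `ρ |dz|²` on `Ω`
(that is `lap u + λ_n ρ u = 0`), `λ_n → ∞`, with semiclassical measure `m(z) ν_z dvol(z)`, `m`
locally square integrable and `ν_z` without atoms modulo `π`. Let `U` be open and relatively compact
in `Ω`, with a boundary of measure zero, `∫_U u² dvol → area U` and
`limsup ∫_U u⁴ dvol ≤ C area U`. Then the quantum limit is spread out: if `m = 0` almost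
everywhere in `U` outside a measurable set `S ⊆ U`, then `area S ≥ (3 / C) area U`. If moreover
`C = 3` (the Gaussian value), then

(1) `m = 1` almost everywhere in `U`;
(2) `u² dvol` is equidistributed in `U`: `∫_U F u² dvol → ∫_U F dvol` for all smooth `F`;
(3) all local fourth moments are Gaussian: `∫ φ u⁴ dvol → 3 ∫ φ dvol`;
(4) equidistribution holds in mean square at all scales above the wavelength: if `r_n → 0` and
`r_n √λ_n → ∞`, then `∫ φ (mean r_n (u²) - 1)² dvol → 0`; here `φ ≥ 0` are test functions on `U`. -/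
theorem result (Ω : Set ℂ) (hΩ : IsOpen Ω) (ρ : ℂ → ℝ) (hρ : ContDiffOn ℝ ∞ ρ Ω)
    (hρ0 : ∀ z ∈ Ω, 0 < ρ z) (lam : ℕ → ℝ) (hpos : ∀ n, 0 < lam n)
    (hlam : Tendsto lam atTop atTop) (u : ℕ → ℂ → ℝ) (hu : ∀ n, ContDiffOn ℝ ∞ (u n) Ω)
    (heq : ∀ n, ∀ z ∈ Ω, lap (u n) z + lam n * (ρ z * u n z) = 0)
    (m : ℂ → ℝ) (hm : ∀ K : Set ℂ, IsCompact K → K ⊆ Ω → MemLp m 2 (volume.restrict K))
    (ν : Kernel ℂ ℝ) [IsMarkovKernel ν]
    (hsc : ∀ φ, TF Ω φ → ∀ k : ℕ, Tendsto (fun n => ∫ z, ((φ z * ρ z : ℝ) : ℂ) *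
      ((u n z : ℂ) * (D ρ (lam n))^[k] (fun w => (u n w : ℂ)) z)) atTop
      (𝓝 (∫ z, ((φ z * ρ z : ℝ) : ℂ) * ((m z : ℂ) * ∫ α, sym α ^ k ∂(ν z)))))
    (hpar : ∀ᵐ z ∂(volume.restrict Ω), parallel (ν z) = 0)
    (U : Set ℂ) (hU : IsOpen U) (hUc : IsCompact (closure U)) (hUΩ : closure U ⊆ Ω)
    (hUb : volume (frontier U) = 0)
    (hn : Tendsto (fun n => ∫ z in U, ρ z * u n z ^ 2) atTop (𝓝 (area ρ U)))
    (C : ℝ) (h4 : ∀ ε : ℝ, 0 < ε → ∀ᶠ n in atTop,
      ∫ z in U, ρ z * u n z ^ 4 ≤ C * area ρ U + ε) :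
    (∀ S : Set ℂ, MeasurableSet S → S ⊆ U → (∀ᵐ z ∂(volume.restrict U), z ∉ S → m z = 0) →
      3 * area ρ U ≤ C * area ρ S) ∧
    (C = 3 →
      (∀ᵐ z ∂(volume.restrict U), m z = 1) ∧
      (∀ F : ℂ → ℝ, ContDiff ℝ ∞ F → Tendsto (fun n => ∫ z in U, F z * ρ z * u n z ^ 2) atTop
        (𝓝 (∫ z in U, F z * ρ z))) ∧
      (∀ φ, TF U φ → (∀ z, 0 ≤ φ z) → Tendsto (fun n => ∫ z, φ z * ρ z * u n z ^ 4) atTop
        (𝓝 (3 * ∫ z, φ z * ρ z))) ∧
      ∀ φ, TF U φ → (∀ z, 0 ≤ φ z) → ∀ r : ℕ → ℝ, (∀ n, 0 < r n) → Tendsto r atTop (𝓝 0) →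
        Tendsto (fun n => r n * √(lam n)) atTop atTop →
        Tendsto (fun n => ∫ z, φ z * ρ z * (mean (r n) (fun w => u n w ^ 2) z - 1) ^ 2) atTop
          (𝓝 0)) := by
  have H := Pool.Agent.TH294.RG.rawG_met (M := Pool.Agent.TH294.RG.MM m
    Pool.Agent.TH294.RG.ea ν) hΩ hpos hlam hρ hρ0 hu heq hsc
  have hp : ∀ᵐ z ∂(volume.restrict Ω), Pool.Agent.TH294.RG.par Pool.Agent.TH294.RG.ea (ν z) = 0 := by
    filter_upwards [hpar] with z hz
    simp only [Pool.Agent.TH294.RG.par, Pool.Agent.TH294.RG.ea_par]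
    exact hz
  have X : Pool.Agent.Q175.RW.QC.Dat Ω U ρ m ν (fun z => 1 / √(ρ z)) (fun n => 1 / √(lam n)) u :=
    ⟨⟨hΩ, hρ, hρ0, hU, hUc, hUΩ, hUb⟩, hm, hp, H, hn⟩
  refine ⟨fun S hS hSU hmS => X.supp h4 hS hSU hmS, fun hC => ?_⟩
  subst hC
  refine ⟨X.one h4, fun F hF => X.equi h4 hF, fun φ hφ hφ0 => X.loc4 h4 hφ hφ0,
    fun φ hφ hφ0 r hr hr0 hr1 => ?_⟩
  have key := X.meso h4 hφ hφ0 hr0 (r := r) (by
    refine hr1.congr fun n => ?_
    rw [div_div_eq_mul_div, div_one])
  refine key.congr fun n => ?_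
  congr 1; funext z
  have e1 : mean (r n) (fun w => u n w ^ 2) z =
      ∫ w, u n (z + r n • w) ^ 2 ∂Pool.Agent.TH294.RG.dm :=
    Pool.Agent.TH294.RG.mean_dm (fun w => u n w ^ 2) z (hr n)
  rw [e1]

end Pool.Agent.Results.MP_07c750_an.FourthMomentCriterion
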