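import Pool.Agent.Q205.Baire.Limits

/-!
# Quantum limits of generic metrics are stable

`M` is a Baire space of metrics (for instance the negatively curved metrics on a closed manifold `X`
with the `C^∞` topology), `G` a residual set of metrics (for instance those with simple spectrum; by
Uhlenbeck's theorem this is a residual set, and the probability measures `μ j g = |φ_j|² dvol_g` are
well defined and continuous functions of `g ∈ G`), `P` a compact metric space (for instance the
probability measures on `X` with the weak-* topology, or the probability measures on the unit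
cotangent bundle for microlocal lifts), and `m : M → P` a continuous map (the uniform measure of
`g`).  `IsLimit μ g ν`: `ν` is a limit of a subsequence of `μ 0 g, μ 1 g, ...` (a quantum limit of
`g`).  `IsJointLimit μ g ν`: `ν` is a limit point of `μ j g'` for `j → ∞` and `g' → g`.
-/

set_option autoImplicit false

namespace Pool.Agent.Results.MP_07c750_an.GenericQuantumLimits

open Filter Topology Set Pool.Agent.Q205.Baire.Limits

/-- quantum unique ergodicity for the metric `g`: the only limit is `m g` -/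
def QUE {M P : Type*} [TopologicalSpace M] [TopologicalSpace P] {G : Set M} (μ : ℕ → G → P)
    (m : M → P) (g : G) : Prop :=
  ∀ ν, IsLimit μ g ν → ν = m g

theorem gap {M P : Type*} [TopologicalSpace M] [MetricSpace P] [CompactSpace P] {G : Set M}
    (hG : G ∈ residual M) {μ : ℕ → G → P} (hμ : ∀ j, Continuous (μ j)) {m : M → P}
    (hm : Continuous m) (h : ¬ ∀ᶠ g in residual M, ∃ hg : g ∈ G, QUE μ m ⟨g, hg⟩) :
    ∃ ε : ℝ, 0 < ε ∧ ∃ U : Set M, IsOpen U ∧ U.Nonempty ∧
      ∀ᶠ g in residual M, g ∈ U → ∃ hg : g ∈ G, ∃ ν, IsLimit μ ⟨g, hg⟩ ν ∧ ε ≤ dist ν (m g) := by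
  classical
  set Bad : ℕ → Set M := fun n => {g | ∃ hg : g ∈ G, ∃ ν, IsLimit μ ⟨g, hg⟩ ν ∧
    1 / ((n : ℝ) + 1) ≤ dist ν (m g)} with hBad
  have hex : ∃ n, (interior (closure (Bad n))).Nonempty := by
    by_contra hno
    push_neg at hno
    apply h
    have h1 : ∀ᶠ g in residual M, ∀ n, g ∉ closure (Bad n) := by
      rw [eventually_countable_forall]
      intro n
      exact residual_of_dense_open isClosed_closure.isOpen_compl
        (interior_eq_empty_iff_dense_compl.1 (hno n))
    filter_upwards [hG, h1] with g hg hn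
    refine ⟨hg, fun ν hν => ?_⟩
    by_contra hne
    have hpos : 0 < dist ν (m g) := dist_pos.2 hne
    obtain ⟨n, hn'⟩ := exists_nat_one_div_lt hpos
    exact hn n (subset_closure ⟨hg, ν, hν, hn'.le⟩)
  obtain ⟨n, hne⟩ := hex
  set c : ℝ := 1 / ((n : ℝ) + 1) with hc
  have hcpos : 0 < c := by positivity
  refine ⟨c / 2, by positivity, interior (closure (Bad n)), isOpen_interior, hne, ?_⟩
  filter_upwards [generic_joint hG hμ] with g hgj hgU
  obtain ⟨hg, hj⟩ := hgj
  refine ⟨hg, ?_⟩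
  by_contra hno
  push_neg at hno
  have hO : IsOpen {ν : P | dist ν (m g) < c / 2} := isOpen_lt (continuous_id.dist continuous_const)
    continuous_const
  obtain ⟨V, hV, J, hVJ⟩ := uniform_of_no_joint (μ := μ) (g := g) hO (fun ν hν hJ => by
    have h1 := hno ν (hj ν hJ)
    exact hν h1)
  have hV2 : ∀ᶠ g' in 𝓝 g, dist (m g') (m g) < c / 4 :=
    (hm.tendsto g).eventually (Metric.ball_mem_nhds _ (by positivity))
  have hcl : g ∈ closure (Bad n) := interior_subset hgU
  obtain ⟨g', ⟨hg'V, hg'd⟩, hg'G, ν', hν', hd⟩ := mem_closure_iff_nhds.1 hcl _ (inter_mem hV hV2)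
  obtain ⟨j, hjJ, hjb⟩ := hν' J (Metric.ball ν' (c / 4)) (Metric.ball_mem_nhds _ (by positivity))
  have h1 := hVJ j hjJ ⟨g', hg'G⟩ hg'V
  simp only [Set.mem_setOf_eq] at h1 hg'd
  rw [Metric.mem_ball] at hjb
  have h2 : dist ν' (m g') ≤ dist ν' (μ j ⟨g', hg'G⟩) + dist (μ j ⟨g', hg'G⟩) (m g)
      + dist (m g) (m g') := dist_triangle4 _ _ _ _
  rw [dist_comm] at hjb
  rw [dist_comm (m g) (m g')] at h2
  linarith

/-- **Theorem.** Let `G` be a residual set of a topological space `M`, `P` a compact metric space,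
`μ j : G → P` continuous for all `j ∈ ℕ` and `m : M → P` continuous.

1. For generic `g`: every limit point of `μ j g'` as `j → ∞` and `g' → g` (`g' ∈ G`) is a quantum
   limit of `g` itself.
2. For generic `g`: if QUE holds for `g`, it holds uniformly for all metrics near `g`: for every
   `ε > 0` there are a neighbourhood `V` of `g` and `J` with `dist (μ j g') (m g') < ε` for all
   `j ≥ J` and all `g' ∈ V ∩ G`.
3. For generic `g`: every limit of quantum limits of metrics tending to `g` is a quantum limit of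
   `g`; so a measure which is a quantum limit for a dense set of metrics is one for generic metrics.
4. If QUE does not hold for generic metrics, there are `ε > 0` and a nonempty open set `U` of metrics
   such that the generic metric in `U` has a quantum limit at distance at least `ε` from the uniform
   measure.
5. If `M` is a Baire space, QUE holds for generic metrics if and only if for every `ε > 0` every
   nonempty open set contains a nonempty open set `V` such that for some `J`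
   `dist (μ j g) (m g) < ε` for all `j ≥ J` and all `g ∈ V ∩ G`. -/
theorem result {M P : Type*} [TopologicalSpace M] [MetricSpace P] [CompactSpace P] {G : Set M}
    (hG : G ∈ residual M) {μ : ℕ → G → P} (hμ : ∀ j, Continuous (μ j)) {m : M → P}
    (hm : Continuous m) :
    (∀ᶠ g in residual M, ∃ hg : g ∈ G, ∀ ν, IsJointLimit μ g ν → IsLimit μ ⟨g, hg⟩ ν) ∧
    (∀ᶠ g in residual M, ∃ hg : g ∈ G, QUE μ m ⟨g, hg⟩ → ∀ ε : ℝ, 0 < ε →
      ∃ V ∈ 𝓝 g, ∃ J : ℕ, ∀ j, J ≤ j → ∀ g' : G, (g' : M) ∈ V → dist (μ j g') (m g') < ε) ∧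
    (∀ᶠ g in residual M, ∃ hg : g ∈ G, ∀ ν, (∀ V ∈ 𝓝 g, ∀ O ∈ 𝓝 ν, ∃ g' : G, (g' : M) ∈ V ∧
      ∃ ν' ∈ O, IsLimit μ g' ν') → IsLimit μ ⟨g, hg⟩ ν) ∧
    ((¬ ∀ᶠ g in residual M, ∃ hg : g ∈ G, QUE μ m ⟨g, hg⟩) →
      ∃ ε : ℝ, 0 < ε ∧ ∃ U : Set M, IsOpen U ∧ U.Nonempty ∧
        ∀ᶠ g in residual M, g ∈ U → ∃ hg : g ∈ G, ∃ ν, IsLimit μ ⟨g, hg⟩ ν ∧ ε ≤ dist ν (m g)) ∧
    (BaireSpace M → ((∀ᶠ g in residual M, ∃ hg : g ∈ G, QUE μ m ⟨g, hg⟩) ↔
      ∀ ε : ℝ, 0 < ε → ∀ U : Set M, IsOpen U → U.Nonempty → ∃ V : Set M, IsOpen V ∧ V.Nonempty ∧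
        V ⊆ U ∧ ∃ J : ℕ, ∀ j, J ≤ j → ∀ g : G, (g : M) ∈ V → dist (μ j g) (m g) < ε)) := by
  have h1 := generic_joint hG hμ
  have h2 : ∀ᶠ g in residual M, ∃ hg : g ∈ G, QUE μ m ⟨g, hg⟩ → ∀ ε : ℝ, 0 < ε →
      ∃ V ∈ 𝓝 g, ∃ J : ℕ, ∀ j, J ≤ j → ∀ g' : G, (g' : M) ∈ V → dist (μ j g') (m g') < ε := by
    filter_upwards [h1] with g hgj
    obtain ⟨hg, hj⟩ := hgj
    refine ⟨hg, fun hQ ε hε => ?_⟩
    have hO : IsOpen {ν : P | dist ν (m g) < ε / 2} :=
      isOpen_lt (continuous_id.dist continuous_const) continuous_const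
    obtain ⟨V, hV, J, hVJ⟩ := uniform_of_no_joint (μ := μ) (g := g) hO (fun ν hν hJ => by
      have h := hQ ν (hj ν hJ)
      apply hν
      rw [h]
      simpa using hε)
    have hV2 : ∀ᶠ g' in 𝓝 g, dist (m g') (m g) < ε / 2 :=
      (hm.tendsto g).eventually (Metric.ball_mem_nhds _ (by positivity))
    refine ⟨V ∩ {g' | dist (m g') (m g) < ε / 2}, inter_mem hV hV2, J, fun j hj' g' hg' => ?_⟩
    have a1 := hVJ j hj' g' hg'.1
    have a2 := hg'.2
    simp only [Set.mem_setOf_eq] at a1 a2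
    rw [dist_comm] at a2
    have a3 := dist_triangle (μ j g') (m g) (m g')
    linarith
  refine ⟨h1, h2, ?_, gap hG hμ hm, ?_⟩
  · filter_upwards [h1] with g hgj
    obtain ⟨hg, hj⟩ := hgj
    refine ⟨hg, fun ν hν => hj ν ?_⟩
    apply joint_closure
    intro V hV O hO
    obtain ⟨g', hg', ν', hν', hl⟩ := hν V hV O hO
    exact ⟨g', hg', ν', hν', joint_of_limit hl⟩
  · intro hB
    constructor
    · intro hQ ε hε U hU hne
      obtain ⟨g, hgU, ⟨hg1, hgQ⟩, hg2, hgu⟩ :=
        (dense_of_mem_residual (hQ.and h2)).inter_open_nonempty U hU hne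
      obtain ⟨V, hV, J, hVJ⟩ := hgu hgQ ε hε
      refine ⟨interior V ∩ U, isOpen_interior.inter hU, ⟨g, mem_interior_iff_mem_nhds.2 hV, hgU⟩,
        inter_subset_right, J, fun j hj g' hg' => hVJ j hj g' (interior_subset hg'.1)⟩
    · intro h
      by_contra hno
      obtain ⟨ε, hε, U, hU, hne, hr⟩ := gap hG hμ hm hno
      obtain ⟨V, hV, hVne, hVU, J, hVJ⟩ := h (ε / 2) (by positivity) U hU hne
      obtain ⟨g, hgV, hg⟩ := (dense_of_mem_residual hr).inter_open_nonempty V hV hVne
      obtain ⟨hgG, ν, hν, hd⟩ := hg (hVU hgV)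
      obtain ⟨j, hj, hjb⟩ := hν J (Metric.ball ν (ε / 2)) (Metric.ball_mem_nhds _ (by positivity))
      have a1 := hVJ j hj ⟨g, hgG⟩ hgV
      rw [Metric.mem_ball, dist_comm] at hjb
      have a3 := dist_triangle ν (μ j ⟨g, hgG⟩) (m g)
      linarith

end Pool.Agent.Results.MP_07c750_an.GenericQuantumLimits
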