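import Pool.Agent.Q175.RW.TP

/-!
# Triple products of Laplace eigenfunctions on surfaces and the fourth moment (MP_07c750_an)

A Riemannian surface in isothermal coordinates: an open set `Ω ⊆ ℂ` with the metric `ρ |dz|²`,
area measure `ρ dx dy`. `dx f z`, `dy f z` are the partial derivatives `fderiv ℝ f z 1`,
`fderiv ℝ f z I`, and `lap f = dx (dx f) + dy (dy f)`; `TF Ω φ` says that `φ : ℂ → ℝ` is smooth
with compact support contained in `Ω`.

In the metric rescaled by `λ` the operator `D = (λ ρ)^{-1/2} (∂x - i ∂y)` is the derivative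
`∂_1 - i ∂_2` in the conformal orthonormal frame; at a unit momentum of direction `α` its symbol is
`sym α = i exp(-iα)`. The hypothesis `hsc` says that `u n` has the semiclassical measure
`m(z) ν_z(dα) dvol(z)` on the unit cosphere bundle over `Ω`. Quantum ergodicity is the case `m = 1`,
`ν_z` uniform. The hypothesis `hpar` says that `ν_z` has no atoms modulo `π`.

The theorem bounds the matrix element `∫ φ u² v dvol` of the square of `u` against any other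
eigenfunction `v` (for instance another member of the basis) by the excess of the fourth moment of
`u` over its Gaussian value.
-/

set_option autoImplicit false
open MeasureTheory Filter Topology Complex ProbabilityTheory
open scoped ContDiff ENNReal

namespace Pool.Agent.Results.MP_07c750_an.TripleProducts

open Pool.Agent.W745.RW

/-- the normalised frame derivative `(λ ρ)^{-1/2} (∂x - i ∂y)` -/
noncomputable def D (ρ : ℂ → ℝ) (lam : ℝ) (f : ℂ → ℂ) (z : ℂ) : ℂ :=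
  ((1 / √(lam * ρ z) : ℝ) : ℂ) * (dx f z - I * dy f z)

/-- the symbol of `D` at a unit momentum of direction `α` -/
noncomputable def sym (α : ℝ) : ℂ := I * Complex.exp (-(α : ℂ) * I)

/-- the probability that two independent directions of law `ν` are parallel (equal or opposite) -/
noncomputable def parallel (ν : Measure ℝ) : ℝ :=
  (ν.prod ν).real {p | Real.sin (p.1 - p.2) = 0}

/-- the admissible constants: `c = 2/3` always; `c = 1/3` if the ratio `μ_n / λ_n` of the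
eigenvalues stays away from `0`; `c = 0` if this ratio stays away from `0` and from `4` -/
def Adm (c : ℝ) (lam mu : ℕ → ℝ) : Prop :=
  c = 2 / 3 ∨ (c = 1 / 3 ∧ ∃ δ : ℝ, 0 < δ ∧ ∀ᶠ n in atTop, δ * lam n ≤ mu n) ∨
    (c = 0 ∧ ∃ δ : ℝ, 0 < δ ∧ ∀ᶠ n in atTop, δ * lam n ≤ mu n ∧
      δ * lam n ≤ |mu n - 4 * lam n|)

/-- **Result.** Let `u n`, `v n` be real solutions of `Δu + λ_n u = 0`, `Δv + μ_n v = 0` for the
metric `ρ |dz|²` on `Ω` (that is `lap u + λ_n ρ u = 0`), `λ_n → ∞`, `μ_n → ∞`; let `u n` have the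
semiclassical measure `m(z) ν_z dvol(z)`, `m` smooth and `ν_z` without atoms modulo `π`, and let
`v n` be bounded in `L²` of every compact subset. Let `K ⊆ Ω` be compact, `φ ≥ 0` a test function
supported in its interior, `ε > 0`. Then, for all large `n`,

`(∫ φ u² v dvol)² ≤ c (∫ φ u⁴ dvol - 3 ∫ φ m² dvol) (∫ φ v² dvol) + ε (1 + ∫_K u⁴)`,

where `c = 2/3`, or `c = 1/3` if `μ_n / λ_n` stays away from `0`, or `c = 0` if `μ_n / λ_n` stays
away from `0` and from `4`. -/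
theorem result (Ω : Set ℂ) (hΩ : IsOpen Ω) (ρ : ℂ → ℝ) (hρ : ContDiffOn ℝ ∞ ρ Ω)
    (hρ0 : ∀ z ∈ Ω, 0 < ρ z) (lam mu : ℕ → ℝ) (hpos : ∀ n, 0 < lam n)
    (hlam : Tendsto lam atTop atTop) (mpos : ∀ n, 0 < mu n) (hmu : Tendsto mu atTop atTop)
    (u v : ℕ → ℂ → ℝ) (hu : ∀ n, ContDiffOn ℝ ∞ (u n) Ω) (hv : ∀ n, ContDiffOn ℝ ∞ (v n) Ω)
    (heq : ∀ n, ∀ z ∈ Ω, lap (u n) z + lam n * (ρ z * u n z) = 0)
    (hev : ∀ n, ∀ z ∈ Ω, lap (v n) z + mu n * (ρ z * v n z) = 0)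
    (hvb : ∀ K : Set ℂ, IsCompact K → K ⊆ Ω → ∃ C : ℝ, ∀ᶠ n in atTop, ∫ z in K, v n z ^ 2 ≤ C)
    (m : ℂ → ℝ) (hm : ContDiffOn ℝ ∞ m Ω) (ν : Kernel ℂ ℝ) [IsMarkovKernel ν]
    (hsc : ∀ φ, TF Ω φ → ∀ k : ℕ, Tendsto (fun n => ∫ z, ((φ z * ρ z : ℝ) : ℂ) *
      ((u n z : ℂ) * (D ρ (lam n))^[k] (fun w => (u n w : ℂ)) z)) atTop
      (𝓝 (∫ z, ((φ z * ρ z : ℝ) : ℂ) * ((m z : ℂ) * ∫ α, sym α ^ k ∂(ν z)))))
    (hpar : ∀ᵐ z ∂(volume.restrict Ω), parallel (ν z) = 0)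
    (K : Set ℂ) (hK : IsCompact K) (hKΩ : K ⊆ Ω) (φ : ℂ → ℝ) (hφ : TF (interior K) φ)
    (hφ0 : ∀ z, 0 ≤ φ z) (c : ℝ) (hc : Adm c lam mu) (ε : ℝ) (hε : 0 < ε) :
    ∀ᶠ n in atTop, (∫ z, φ z * ρ z * (u n z ^ 2 * v n z)) ^ 2 ≤
      c * ((∫ z, φ z * ρ z * u n z ^ 4) - 3 * ∫ z, φ z * ρ z * m z ^ 2) *
        (∫ z, φ z * ρ z * v n z ^ 2) + ε * (1 + ∫ z in K, u n z ^ 4) := by
  have hl : ∀ f : ℕ → ℝ, Tendsto f atTop atTop → Tendsto (fun n => 1 / √(f n)) atTop (𝓝 0) := by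
    intro f hf
    have : Tendsto (fun n => √(f n)) atTop atTop := Real.tendsto_sqrt_atTop.comp hf
    exact (this.inv_tendsto_atTop).congr (fun n => by simp [one_div])
  have hq : ∀ x : ℝ, 0 < x → (1 / √x) ^ 2 = 1 / x := fun x hx => by
    rw [div_pow, Real.sq_sqrt hx.le, one_pow]
  have H := Pool.Agent.TH294.RG.rawG_met (M := Pool.Agent.TH294.RG.MM m
    Pool.Agent.TH294.RG.ea ν) hΩ hpos hlam hρ hρ0 hu heq hsc
  have hp : ∀ᵐ z ∂(volume.restrict Ω), Pool.Agent.TH294.RG.par Pool.Agent.TH294.RG.ea (ν z) = 0 := by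
    filter_upwards [hpar] with z hz
    simp only [Pool.Agent.TH294.RG.par, Pool.Agent.TH294.RG.ea_par]
    exact hz
  have hm2 : ∀ K' : Set ℂ, IsCompact K' → K' ⊆ Ω → MemLp m 2 (volume.restrict K') := by
    intro K' hK' hK'Ω
    have cm : ContinuousOn m K' := hm.continuousOn.mono hK'Ω
    obtain ⟨C, hC⟩ := hK'.exists_bound_of_continuousOn cm
    have : IsFiniteMeasure (volume.restrict K') := ⟨by simpa using hK'.measure_lt_top⟩
    exact MemLp.of_bound (cm.aestronglyMeasurable hK'.measurableSet) C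
      ((ae_restrict_mem hK'.measurableSet).mono hC)
  have hKi : interior K ⊆ Ω := interior_subset.trans hKΩ
  have hφ' : TF (interior K) (fun z => φ z * ρ z) :=
    Pool.Agent.TH294.RS.TF.mulc isOpen_interior hφ (hρ.mono hKi)
  have hφ0' : ∀ z, 0 ≤ φ z * ρ z := by
    intro z
    by_cases hz : z ∈ interior K
    · exact mul_nonneg (hφ0 z) (hρ0 z (hKi hz)).le
    · rw [Pool.Agent.TH294.RS.TF.zero hφ hz, zero_mul]
  have hr : ∀ n, ((1 / √(lam n)) / (1 / √(mu n))) ^ 2 = mu n / lam n := by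
    intro n
    rw [div_pow, hq _ (hpos n), hq _ (mpos n)]
    have h1 := (hpos n).ne'
    have h2 := (mpos n).ne'
    field_simp
  have e1 : ∀ δ : ℝ, ∀ n, δ * lam n ≤ mu n → δ ≤ ((1 / √(lam n)) / (1 / √(mu n))) ^ 2 := by
    intro δ n h
    rw [hr, le_div_iff₀ (hpos n)]; exact h
  have e2 : ∀ δ : ℝ, ∀ n, δ * lam n ≤ |mu n - 4 * lam n| →
      δ ≤ |((1 / √(lam n)) / (1 / √(mu n))) ^ 2 - 4| := by
    intro δ n h
    have h1 := hpos n
    have e : mu n / lam n - 4 = (mu n - 4 * lam n) / lam n := by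
      field_simp
    rw [hr, e, abs_div, abs_of_pos h1, le_div_iff₀ h1]; exact h
  refine Pool.Agent.Q175.RW.TP.triple hΩ hm2 hm hp H
    (fun n => div_pos one_pos (Real.sqrt_pos.2 (mpos n))) (hl mu hmu) hv
    (fun n z hz => ?_) hvb ?_ hK hKΩ hφ' hφ0' hε
  · have h1 := hev n z hz
    have h3 := (mpos n).ne'
    have h5 := (hρ0 z hz).ne'
    have h4 : lap (v n) z = -(mu n * (ρ z * v n z)) := by linarith
    rw [hq _ (mpos n), hq _ (hρ0 z hz), h4]
    field_simp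
    ring
  · rcases hc with h1 | ⟨h1, δ, hδ, h2⟩ | ⟨h1, δ, hδ, h2⟩
    · exact Or.inl h1
    · exact Or.inr (Or.inl ⟨h1, δ, hδ, h2.mono fun n hn => e1 δ n hn⟩)
    · exact Or.inr (Or.inr ⟨h1, δ, hδ, h2.mono fun n hn => ⟨e1 δ n hn.1, e2 δ n hn.2⟩⟩)

end Pool.Agent.Results.MP_07c750_an.TripleProducts
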